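import Mathlib
import Pool.Agent.H496.E1.Fin

/-!
# An exact Petersson formula for the generic cusp forms of quasi-split groups over function fields

`k` is a global function field (or any field with a product formula), `Γ` is the group of the rational points of a
reductive group in `GL_N`, a subgroup of the adelic group `H`, such that the unipotent radical `U` of the Borel
subgroup consists of the upper unitriangular elements. `UA` is the adelic group of `U`, `Ω` a fundamental domain of
`U(k) \ U(𝔸)` and `ψ` a character of `U(𝔸)` which is trivial on `U(k)`; `σ : S → H` is a section of `U(𝔸) \ H`.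

Let `f_1, …, f_r` be an orthonormal basis of a space of automorphic forms of a fixed level, for instance of the space
of cusp forms, which is of finite dimension over a function field. Let `f_j * κ = Λ_j f_j` and
`f_j * κ' = Λ'_j f_j`, where the supports of `κ(g⁻¹ ·)` and `κ'(g'⁻¹ ·)` are contained in `Z`, and the elements
`c = z' z⁻¹` with `z, z' ∈ Z` satisfy `∏_v |c_{ij}|_v < 1` for all `j < i` and `∏_v |c_{ii} - 1|_v < 1`
(uniformly). Let `W_j` be the Whittaker coefficients. The span of the `f_j` contains the conjugate of the Poincaré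
series of `κ'` (for cusp forms: if `κ'` is a matrix coefficient of a supercuspidal representation at one place).

**Theorem.** `∑_j Λ_j Λ'_j^* W_j(g) W_j(g')^* = vol(Ω) ∫_S K_ψ(s) K'_ψ(s)^* ds`, where
`K_ψ(s) = ∫_{U(𝔸)} ψ(u) κ(g⁻¹ u σ(s)) du`.

Thus the eigenvalues of the generic forms, with the weights `|W_j(g)|²`, have exactly the correlations of the
tempered spectrum of `L²(U(𝔸) \ H, ψ)`, for all Hecke operators at all places whose size is less than the level.
By the formula of Casselman and Shalika the functions `K_ψ` of the Hecke operators at an unramified place with the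
Satake transforms `χ_λ` (the irreducible characters of the dual group) are orthogonal: the Satake parameters are
exactly distributed according to the Sato-Tate measure of the compact dual group, as far as it is tested by
characters in this range. This is a form of the Ramanujan conjecture on average; there is no error term.

Proof: the formula of Parseval for the Poincaré series. If `γ ∈ Γ` carries a point of `Ω σ(S_κ)` to another one, then
`γ = u c u'` with unipotent `u, u'`, and the product formula shows, by induction on the distance from the lower left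
corner, that `γ` is unitriangular; so each orbit meets this set at most once.
-/

set_option autoImplicit false

namespace Pool.Agent.Results.MP_eadad4_nt.ExactPetersson

open MeasureTheory Function Pool.Agent.H496
open scoped ComplexConjugate

section defs
variable {k V : Type} [Field k] {L : V → Type} [∀ v, NormedField (L v)]
variable {UA S H : Type} [Group UA] [MeasurableSpace UA] [MeasurableSpace S] [Group H]
  [MeasurableSpace H] {Γ : Subgroup H}

/-- The rational group `Γ` consists of matrices over `k`; the local components of `H` are matrices over the local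
fields. -/
def IsAdelic (e : ∀ v, k →+* L v) {N : ℕ} (r : Γ →* Matrix (Fin N) (Fin N) k)
    (τ : ∀ v, H →* Matrix (Fin N) (Fin N) (L v)) : Prop :=
  ∀ v (γ : Γ), τ v (γ : H) = (r γ).map (e v)

/-- The adelic points of the unipotent group: its local components are unitriangular, and it contains the
unitriangular elements of `Γ`. -/
def IsUnipotent {N : ℕ} (r : Γ →* Matrix (Fin N) (Fin N) k)
    (τ : ∀ v, H →* Matrix (Fin N) (Fin N) (L v)) (ι : UA →* H) : Prop :=
  (∀ v u, IsUni (τ v (ι u))) ∧ ∀ γ : Γ, IsUni (r γ) → ∃ ν, ι ν = (γ : H)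

/-- `Ω` is a fundamental domain of finite measure for the rational points of the unipotent group. -/
def IsFD (ω : Measure UA) (Γ : Subgroup H) (ι : UA →* H) (Ω : Set UA) : Prop :=
  MeasurableSet Ω ∧ ω Ω ≠ ⊤ ∧ ∀ u : UA, ∃! ν : rat Γ.subtype ι, (ν : UA) * u ∈ Ω

/-- `σ` is a section of `U(𝔸) \ H`. -/
def IsSection (ω : Measure UA) (ds : Measure S) (μ : Measure H) (ι : UA →* H) (σ : S → H) (Φ : UA × S ≃ᵐ H) :
    Prop :=
  (∀ u s, Φ (u, s) = ι u * σ s) ∧ MeasurePreserving Φ (ω.prod ds) μ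

/-- `ψ` is a character of absolute value `1` which is trivial on the rational points. -/
def IsChar (Γ : Subgroup H) (ι : UA →* H) (ψ : UA → ℂ) : Prop :=
  Measurable ψ ∧ (∀ u v, ψ (u * v) = ψ u * ψ v) ∧ (∀ u, ‖ψ u‖ = 1) ∧ ∀ ν ∈ rat Γ.subtype ι, ψ ν = 1

/-- The `f j` are orthonormal functions on `Γ \ H`; `F` is a fundamental domain. -/
def IsOrthonormal (μ : Measure H) (Γ : Subgroup H) (F : Set H) {J : Type} [DecidableEq J] (f : J → H → ℂ) :
    Prop :=
  (∀ j, Measurable (f j)) ∧ (∀ j (γ : Γ) h, f j (γ * h) = f j h) ∧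
    ∀ i j, ∫ h in F, f i h * conj (f j h) ∂μ = if i = j then 1 else 0

/-- `f * κ = Λ f`, and the integral which defines the Whittaker coefficient of `f * κ` at `g` converges
absolutely. -/
def IsEig (ω : Measure UA) (Ω : Set UA) (μ : Measure H) (ι : UA →* H) (κ : H → ℂ) (g : H) (f : H → ℂ) (Λ : ℂ) :
    Prop :=
  (∀ h, ∫ y, f (h * y) * κ y ∂μ = Λ * f h) ∧
    Integrable (fun p : UA × H => f (ι p.1 * p.2) * κ (g⁻¹ * p.2)) ((ω.restrict Ω).prod μ)

/-- Square integrable kernels such that `κ (g⁻¹ ·)` has its support in `Z`. -/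
def IsKer (ω : Measure UA) (ds : Measure S) (ι : UA →* H) (ψ : UA → ℂ) (σ : S → H) (Z : Set H) (κ : H → ℂ)
    (g : H) : Prop :=
  Measurable κ ∧ (∀ h, κ (g⁻¹ * h) ≠ 0 → h ∈ Z) ∧ Integrable (fun s => ‖Kpsi ω ι ψ σ κ g s‖ ^ 2) ds

/-- The range: the entries below the diagonal are small and the diagonal entries are close to `1`. -/
def InRange {N : ℕ} (τ : ∀ v, H →* Matrix (Fin N) (Fin N) (L v)) (Z : Set H) : Prop :=
  (∀ i j : Fin N, j < i → ∃ c : V → ℝ, IsSmall c ∧ ∀ z ∈ Z, ∀ z' ∈ Z, ∀ v, ‖τ v (z' * z⁻¹) i j‖ ≤ c v) ∧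
    ∀ i : Fin N, ∃ c : V → ℝ, IsSmall c ∧ ∀ z ∈ Z, ∀ z' ∈ Z, ∀ v, ‖τ v (z' * z⁻¹) i i - 1‖ ≤ c v

/-- The conjugate of the Poincaré series of `κ` is a linear combination of the `f j`. -/
def Spans (ω : Measure UA) (ι : UA →* H) (ψ : UA → ℂ) (Ω : Set UA) (Φ : UA × S ≃ᵐ H) (μ : Measure H)
    (Γ : Subgroup H) (F : Set H) (κ : H → ℂ) (g : H) {J : Type} [Fintype J] (f : J → H → ℂ) : Prop :=
  ∃ c : J → ℂ, ∀ᵐ h ∂(μ.restrict F), conj (orb Γ (Qf ω ι ψ Ω Φ κ g) h) = ∑ j, c j * f j h

end defs

theorem result {k V : Type} [Field k] {L : V → Type} [∀ v, NormedField (L v)] (e : ∀ v, k →+* L v)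
    (he : ProductFormula e) {UA S H : Type} [Group UA] [MeasurableSpace UA] [MeasurableMul UA]
    [MeasurableSpace S] [Group H] [MeasurableSpace H] [MeasurableMul H] (Γ : Subgroup H) [Countable Γ]
    (ω : Measure UA) [SFinite ω] [ω.IsMulLeftInvariant] [ω.IsMulRightInvariant] (ds : Measure S) [SFinite ds]
    (μ : Measure H) [SFinite μ] [μ.IsMulLeftInvariant]
    {N : ℕ} (r : Γ →* Matrix (Fin N) (Fin N) k) (τ : ∀ v, H →* Matrix (Fin N) (Fin N) (L v))
    (ι : UA →* H) (hG : IsAdelic e r τ) (hU : IsUnipotent r τ ι) (Ω : Set UA) (hΩ : IsFD ω Γ ι Ω)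
    (σ : S → H) (Φ : UA × S ≃ᵐ H) (hσ : IsSection ω ds μ ι σ Φ) (ψ : UA → ℂ) (hψ : IsChar Γ ι ψ)
    (F : Set H) (hF : MeasurableSet F) (hF' : IsFundamentalDomain Γ F μ)
    {J : Type} [Fintype J] [DecidableEq J] (f : J → H → ℂ) (hf : IsOrthonormal μ Γ F f)
    (Z : Set H) (hZ : InRange τ Z) (κ κ' : H → ℂ) (g g' : H) (hκ : IsKer ω ds ι ψ σ Z κ g)
    (hκ' : IsKer ω ds ι ψ σ Z κ' g') (Λ Λ' : J → ℂ) (hΛ : ∀ j, IsEig ω Ω μ ι κ g (f j) (Λ j))
    (hΛ' : ∀ j, IsEig ω Ω μ ι κ' g' (f j) (Λ' j)) (hspan : Spans ω ι ψ Ω Φ μ Γ F κ' g' f) :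
    ∑ j, Λ j * conj (Λ' j) * (Wh ω Ω ι ψ (f j) g * conj (Wh ω Ω ι ψ (f j) g')) =
      ω.real Ω * ∫ s, Kpsi ω ι ψ σ κ g s * conj (Kpsi ω ι ψ σ κ' g' s) ∂ds := by
  obtain ⟨c, hc⟩ := hspan
  exact petersson he hG hU.1 hU.2 hΩ.1 hΩ.2.1 hΩ.2.2 hσ.1 hσ.2 hψ.1 hψ.2.1 hψ.2.2.1 hψ.2.2.2 hF hF' hf.1 hf.2.1
    hf.2.2 hZ.1 hZ.2 hκ.1 hκ'.1 hκ.2.1 hκ'.2.1 hκ.2.2 hκ'.2.2 (fun j => (hΛ j).1) (fun j => (hΛ' j).1)
    (fun j => (hΛ j).2) (fun j => (hΛ' j).2) hc

end Pool.Agent.Results.MP_eadad4_nt.ExactPetersson
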