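import Mathlib
import Pool.Agent.H497.TU.Fin
import Pool.Agent.H497.TU.Herm
import Pool.Agent.H497.TT.Hecke

set_option autoImplicit false

/-! The known bounds towards the Ramanujan conjecture for groups other than `GL(n)` over function fields would have to
come from the analytic properties of finitely many Langlands `L`-functions `L(s, π, ρ × τ)`. We show that these give nothing
beyond the trivial bound: let `G` be a compact connected group (a compact form of the dual group), `ρ_1, ..., ρ_m`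
nontrivial irreducible representations, `0 ≤ θ < 1`, and prescribe at the places `P` of a thin (possibly infinite) set ANY
hermitian semisimple classes `c_P` of the complexification of `G` such that the eigenvalues of the `ρ_i(c_P)` are at most
`q_P^θ`. Then there are elements `c_P` of `G` at the other places such that for all `i` and ALL twists `χ` in a given system
of twists of bounded rank the `L`-function `L(s, ρ_i(c) × χ)` is a polynomial in `q^(-s)` with the functional equation, with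
prescribed degree and root number, and without zeros in `Re s > max(1/2, θ) + δ`. -/

namespace Pool.Agent.Results.MP_eadad4_nt.NonTemperedAllTwists

open Polynomial Pool.Agent.H497.TT Pool.Agent.H497.TU

/-- the primitive idele class characters of `F(t)` (trivial at the uniformiser `1/t` of infinity) with their conductor
`(f, m)`, given by their values at the monic polynomials -/
abbrev Characters (F : Type) [Field F] [Fintype F] : Type :=
  {x : F[X] × ℕ × (F[X] → ℂ) // Pool.Agent.H497.FF.IsPrim x.1 x.2.1 x.2.2}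

open Classical in
theorem result :
    (∀ θ δ : ℝ, 0 ≤ θ → θ < 1 → 0 < δ → ∃ ε : ℝ, 0 < ε ∧ ∃ ν : ℕ, ∀ (𝓟 𝓧 : Type) (S : TSys 𝓟 𝓧),
      ∀ (G : Type) [Group G] [TopologicalSpace G] [IsTopologicalGroup G] [CompactSpace G] [T2Space G],
      GeneratedByOneParameter G →
      -- finitely many inequivalent nontrivial irreducible representations, at most one from each pair of dual ones
      ∀ (m : ℕ) (n : Fin m → ℕ) (ρ : (i : Fin m) → G →* Matrix.unitaryGroup (Fin (n i)) ℂ),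
        (∀ i, Continuous (ρ i) ∧ Irr (ρ i) ∧ ∃ g, ρ i g ≠ 1) →
        (∀ i j, i ≠ j → ¬ Equi (mat (ρ i)) (mat (ρ j)) ∧ ¬ Equi (mat (ρ i)) (cmat (ρ j))) →
      -- a thin set of places
      ∀ (T : Set 𝓟) (C : ℕ),
        (∀ k : ℕ, k ≠ 0 → (k : ℝ) * {P | P ∈ T ∧ S.deg P = k}.ncard ≤ C * (S.q : ℝ) ^ (ε * k)) →
      ∃ N0 : Fin m → ℕ,
      -- degrees and root numbers
      ∀ (N : Fin m → 𝓧 → ℕ) (W : Fin m → 𝓧 → ℂ),
        (∀ i χ, ν * (S.a + 1) * (S.c χ + 1) + N0 i ≤ N i χ ∧ S.per χ ∣ N i χ ∧ ‖W i χ‖ = 1) →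
        (∀ i, Equi (mat (ρ i)) (cmat (ρ i)) →
          ∀ χ, N i (S.bar χ) = N i χ ∧ W i (S.bar χ) = starRingEnd ℂ (W i χ)) →
      -- hermitian semisimple elements of the complexification of `G` at the places in `T`, and their matrices
      ∀ (c₀ : 𝓟 → CxElt G) (B : (i : Fin m) → 𝓟 → Matrix (Fin (n i)) (Fin (n i)) ℂ),
        (∀ P, P ∈ T → (c₀ P).Hermitian) →
        (∀ i P, P ∈ T → (c₀ P).IsMatrix (ρ i) (B i P) ∧
          ∀ z, (B i P).charpoly.IsRoot z → ‖z‖ ≤ (S.q : ℝ) ^ (θ * S.deg P)) →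
      ∃ c : 𝓟 → G, ∀ (i : Fin m) (χ : 𝓧), ∃ L : ℂ[X], Nice S.q (N i χ) (W i χ) (max (1 / 2) θ - 1 / 2 + δ) L ∧
        ∀ u : ℂ, ‖u‖ < 1 / S.q → HasProd (fun P : 𝓟 => ∏ j,
          (1 - (S.par χ P j * u ^ S.deg P) • (if P ∈ T then B i P else mat (ρ i) (c P))).det⁻¹) (L.eval u)) ∧
    -- the matrices exist
    (∀ (G : Type) [Group G] [TopologicalSpace G] (c : CxElt G) (n : ℕ) (ρ : G →* Matrix.unitaryGroup (Fin n) ℂ),
      Continuous ρ → ∃ A, c.IsMatrix ρ A) ∧
    -- the finite places and all the idele class characters of `F(t)`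
    ∀ (F : Type) [Field F] [Fintype F],
      ∃ S : TSys {P : F[X] // P.Monic ∧ Irreducible P} (Characters F),
        S.q = Fintype.card F ∧ S.a = 2 ∧ S.R = 1 ∧ (∀ P, S.deg P = (P : F[X]).natDegree) ∧
        (∀ χ P j, S.par χ P j = χ.1.2.2 P) ∧ (∀ χ, S.c χ = χ.1.1.natDegree + χ.1.2.1 ∧ S.per χ = 1) ∧
        ∀ χ, (S.bar χ).1 = (χ.1.1, χ.1.2.1, fun D => starRingEnd ℂ (χ.1.2.2 D)) := by
  refine ⟨fun θ δ hθ0 hθ1 hδ => ?_, fun G _ _ c n ρ hρ => cx_exists c ρ hρ, fun F _ _ => ⟨heckeT F, rfl, rfl, rfl,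
    fun _ => rfl, fun _ _ _ => rfl, fun _ => ⟨rfl, rfl⟩, fun _ => rfl⟩⟩
  have hm0 : (1 : ℝ) / 2 ≤ max (1 / 2) θ := le_max_left _ _
  have hm1 : θ ≤ max (1 / 2) θ := le_max_right _ _
  have hm2 : max (1 / 2) θ < 1 := max_lt (by norm_num) hθ1
  obtain ⟨ε, hε0, hε1, hε2, hε3⟩ : ∃ ε : ℝ, 0 < ε ∧ ε ≤ δ / 2 ∧ max (1 / 2) θ + ε < 1 ∧ ε ≤ 1 / 2 :=
    ⟨min (min (δ / 2) ((1 - max (1 / 2) θ) / 2)) (1 / 2),
      lt_min (lt_min (by linarith) (by linarith)) (by norm_num),
      (min_le_left _ _).trans (min_le_left _ _),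
      by linarith [(min_le_left (min (δ / 2) ((1 - max (1 / 2) θ) / 2)) (1 / 2)).trans (min_le_right _ _)],
      min_le_right _ _⟩
  obtain ⟨ν, H⟩ := mainFin (σ := max (1 / 2) θ + ε) (δ := δ / 2) (by linarith) hε2 (by linarith)
  refine ⟨ε, hε0, ν, fun 𝓟 𝓧 S G _ _ _ _ _ hG m n ρ hρ hne T C hTC => ?_⟩
  have hq1 : (1 : ℝ) ≤ S.q := by
    have := S.hq
    exact_mod_cast (by omega : 1 ≤ S.q)
  have hq0 : (0 : ℝ) < S.q := by linarith
  obtain ⟨N0, H⟩ := H S G hG m n ρ (fun i => (hρ i).1) (fun i => (hρ i).2.1) (fun i => (hρ i).2.2) hne T C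
    (fun k hk => by
      rw [TPr_card]
      refine (hTC k hk).trans ?_
      rw [Real.sqrt_eq_rpow, ← Real.rpow_natCast ((S.q : ℝ) ^ (1 / 2 : ℝ)) k, ← Real.rpow_mul hq0.le]
      refine mul_le_mul_of_nonneg_left ?_ (Nat.cast_nonneg _)
      exact Real.rpow_le_rpow_of_exponent_le hq1 (mul_le_mul_of_nonneg_right hε3 (Nat.cast_nonneg _)))
  refine ⟨N0, fun N W hNW hsd c₀ B hc hB => ?_⟩
  obtain ⟨c, hcc⟩ := H N W hNW hsd (fun P => (S.q : ℝ) ^ (θ * S.deg P))
    (fun P => Real.one_le_rpow hq1 (by positivity))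
    (fun P => Real.rpow_le_rpow_of_exponent_le hq1 (mul_le_mul_of_nonneg_right (by linarith) (Nat.cast_nonneg _)))
    (fun k hk => by
      have h1 := hTC k hk
      rw [← TPr_card] at h1
      have e : ∑ P ∈ TPr S T k, (S.q : ℝ) ^ (θ * S.deg P) = (TPr S T k).card * (S.q : ℝ) ^ (θ * k) := by
        rw [← nsmul_eq_mul, ← Finset.sum_const]
        refine Finset.sum_congr rfl fun P hP => ?_
        have : S.deg P = k := (S.mem_Pr k P).1 (Finset.mem_filter.1 hP).1
        rw [this]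
      rw [e, ← mul_assoc]
      have hp : 0 < (S.q : ℝ) ^ (θ * k) := Real.rpow_pos_of_pos hq0 _
      refine (mul_le_mul_of_nonneg_right h1 hp.le).trans ?_
      rw [mul_assoc, ← Real.rpow_add hq0]
      refine mul_le_mul_of_nonneg_left ?_ (Nat.cast_nonneg _)
      refine Real.rpow_le_rpow_of_exponent_le hq1 ?_
      have hk0 : (0 : ℝ) ≤ k := Nat.cast_nonneg _
      nlinarith)
    B (fun i P hP z hz => (hB i P hP).2 z hz)
    (fun i P hP hs => herm_real (c₀ P) (hc P hP) (ρ i) hs (hB i P hP).1)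
  refine ⟨c, fun i χ => ?_⟩
  obtain ⟨L, hL, hprod⟩ := hcc i χ
  refine ⟨L, ⟨hL.degree, hL.functional, fun u hu => hL.zeros u (lt_of_lt_of_le hu ?_)⟩, hprod⟩
  exact Real.rpow_le_rpow_of_exponent_le hq1 (by linarith)

end Pool.Agent.Results.MP_eadad4_nt.NonTemperedAllTwists
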